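import Pool.Agent.K3h39.KR.Final
import Pool.Agent.K3h67.KR.G
import Pool.Agent.K3h73.KR.D

/-!
# Q2: the Kloosterman sum equals the sum of `(-1)^{Tr R_k(v)}`

For a finite field `F` with `2 ^ n` elements, `n` odd, and every `k` coprime to `n`,
`∑_{x ≠ 0} (-1)^{Tr(x + x⁻¹)} = ∑_{v ≠ 0} (-1)^{Tr R_k(v)}`,
`R_k(v) = (v^q + 1) v^q / (v^q + v)^(q + 1)`, `q = 2 ^ k`.

Proof: let `χ(x) = (-1)^{Tr x}` and `J(x) = -(1/|F|) ∑_l χ(x (l³ + l²))`. This `J` is the Bessel
kernel of the cuspidal representation of `GL₂(F)` attached to a character of order three: it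
satisfies `∑ J(y) = -1`, `∑ J(ay) J(by) = [a = b]`, `∑ χ(y) J(ay) J(by) = χ(a+b) J(ab)` (sums over
`y ≠ 0`). Put `ρ(x) = - ∑_t χ(t) J(tx)`. A count of points fixed by a semilinear map shows
`∑_v χ(R_k(v)) = ∑_x χ(x) ρ(x^(q+1))`, the trace of `R ∘ σ`, where `σ` is the Frobenius power
permuting the basis `F^* ∪ {∞₊, ∞₋, unit}` and `R` extends `ρ(xy) χ(y)`. The matrix `R` commutes
with matrices `K_z` (`z ≠ 0, 1`) extending
`χ(x) ∑_{u ≠ 0, 1} χ(u (1 + x + y + z)) J(xyz (u² + u))`. These commute with each other (by an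
explicit bijection of the pairs `(u, v)`), and together with `R` they have a cyclic vector fixed by
`σ`. So the trace of `R ∘ σ` is the same for all generators `σ` of the Galois group, and for
`k = 1` the sum is the Kloosterman sum.
-/

set_option autoImplicit false
set_option linter.unusedSectionVars false

namespace Pool.Agent.Results.MP_2c585b_nt.KloostermanRationalSum

open Pool.Agent.K3h39.KR Finset

variable {F : Type} [Field F] [Fintype F] [Algebra (ZMod 2) F]

theorem neg_one_sq : (-1 : ℂ) ^ 2 = 1 := by norm_num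

/-- the additive character `(-1)^Tr`. -/
noncomputable def chi (F : Type) [Field F] [Fintype F] [Algebra (ZMod 2) F] : AddChar F ℂ :=
  (AddChar.zmodChar 2 neg_one_sq).compAddMonoidHom
    (Algebra.trace (ZMod 2) F).toAddMonoidHom

theorem chi_apply (x : F) :
    chi F x = (((-1 : ℤ) ^ (Algebra.trace (ZMod 2) F x).val : ℤ) : ℂ) := by
  show AddChar.zmodChar 2 neg_one_sq (Algebra.trace (ZMod 2) F x) = _
  rw [AddChar.zmodChar_apply]
  push_cast
  rfl

theorem chi_equiv (φ : F ≃+* F) (x : F) : chi F (φ x) = chi F x := by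
  have h : ∀ r : ZMod 2, φ (algebraMap (ZMod 2) F r) = algebraMap (ZMod 2) F r := by
    intro r
    exact RingHom.congr_fun (Subsingleton.elim (((φ : F →+* F)).comp (algebraMap (ZMod 2) F))
      (algebraMap (ZMod 2) F)) r
  have h2 := Algebra.trace_eq_of_algEquiv (AlgEquiv.ofRingEquiv (f := φ) h) x
  rw [chi_apply, chi_apply]
  rw [← h2]
  rfl

theorem chi_one (n : ℕ) (hF : Fintype.card F = 2 ^ n) (hn : Odd n) : chi F 1 = -1 := by
  have h1 : Module.finrank (ZMod 2) F = n := by
    have h2 := Module.card_eq_pow_finrank (K := ZMod 2) (V := F)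
    rw [hF, ZMod.card] at h2
    exact (Nat.pow_right_injective (le_refl 2) h2).symm
  have h3 : Algebra.trace (ZMod 2) F 1 = 1 := by
    have h4 := Algebra.trace_algebraMap (R := ZMod 2) (S := F) 1
    rw [map_one, h1, nsmul_eq_mul, mul_one] at h4
    rw [h4]
    obtain ⟨m, rfl⟩ := hn
    push_cast
    have : (2 : ZMod 2) = 0 := rfl
    rw [this]; ring
  rw [chi_apply, h3]
  have h5 : (1 : ZMod 2).val = 1 := rfl
  rw [h5]; norm_num

/-- the power of the Frobenius. -/
noncomputable def fr (F : Type) [Field F] [Fintype F] [CharP F 2] (k : ℕ) : F ≃+* F :=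
  iterateFrobeniusEquiv F 2 k

theorem fr_apply [CharP F 2] (k : ℕ) (x : F) : fr F k x = x ^ 2 ^ k := by
  rw [fr, iterateFrobeniusEquiv_def]

theorem pow_n [DecidableEq F] (n : ℕ) (hF : Fintype.card F = 2 ^ n) (m : ℕ) (x : F) :
    x ^ 2 ^ (n * m) = x := by
  induction m with
  | zero => simp
  | succ m ih => rw [Nat.mul_succ, pow_add, pow_mul, ih, ← hF, FiniteField.pow_card]

theorem fr_iter [CharP F 2] (k m : ℕ) (x : F) : (fr F k)^[m] x = x ^ 2 ^ (k * m) := by
  induction m with
  | zero => simp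
  | succ m ih =>
    rw [Function.iterate_succ_apply', ih, fr_apply, Nat.mul_succ, pow_add, pow_mul x]

/-- `x ^ 2 ^ j = x` with `j` coprime to `n` implies `x = 0` or `x = 1`. -/
theorem fixed [DecidableEq F] (n j : ℕ) (hF : Fintype.card F = 2 ^ n) (hj : Nat.Coprime j n)
    (x : F) (hx : x ^ 2 ^ j = x) : x = 0 ∨ x = 1 := by
  have h1 : ∀ m : ℕ, x ^ 2 ^ (j * m) = x := by
    intro m
    induction m with
    | zero => simp
    | succ m ih => rw [Nat.mul_succ, pow_add, pow_mul, ih, hx]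
  have h2 : x ^ 2 = x := by
    by_cases hn : 1 < n
    · obtain ⟨m, -, hm⟩ := Nat.exists_mul_mod_eq_one_of_coprime hj hn
      have h3 : j * m = n * (j * m / n) + 1 := by
        have := Nat.div_add_mod (j * m) n
        omega
      have h4 := h1 m
      rw [h3, pow_add, pow_mul, pow_n n hF] at h4
      simpa using h4
    · have hn1 : n = 1 ∨ n = 0 := by omega
      rcases hn1 with rfl | rfl
      · have := FiniteField.pow_card x
        rw [hF] at this
        simpa using this
      · exfalso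
        have := Fintype.one_lt_card (α := F)
        rw [hF] at this
        simp at this
  have h3 : x * (x - 1) = 0 := by linear_combination h2
  rcases mul_eq_zero.1 h3 with h | h
  · exact Or.inl h
  · exact Or.inr (sub_eq_zero.1 h)

/-- the sum over `v ≠ 0, 1` in terms of the automorphism. -/
theorem key [DecidableEq F] [CharP F 2] (n k : ℕ) (hF : Fintype.card F = 2 ^ n) (hn : Odd n)
    (hk : Nat.Coprime k n) :
    1 + ∑ v ∈ S01 F, chi F (fr F k v * (fr F k v + 1) /
      ((v + fr F k v) * (fr F k v + fr F k (fr F k v)))) =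
      1 + ∑ v ∈ S01 F, chi F (fr F 1 v * (fr F 1 v + 1) /
      ((v + fr F 1 v) * (fr F 1 v + fr F 1 (fr F 1 v)))) := by
  have h1 := chi_one (F := F) n hF hn
  have h2n : Nat.Coprime 2 n := (Nat.coprime_two_left).2 hn
  have hcube : Function.Injective fun x : F => x ^ 3 := by
    intro x y hxy
    simp only [] at hxy
    by_cases hy : y = 0
    · rw [hy] at hxy ⊢
      simpa using hxy
    · have h3 : (x / y) ^ 3 = 1 := by
        rw [div_pow, hxy, div_self (pow_ne_zero 3 hy)]
      have h4 : (x / y) ^ 2 ^ 2 = x / y := by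
        have : (x / y) ^ 2 ^ 2 = (x / y) ^ 3 * (x / y) := by ring
        rw [this, h3, one_mul]
      rcases fixed n 2 hF h2n _ h4 with h5 | h5
      · rw [h5] at h3; simp at h3
      · rwa [div_eq_one_iff_eq hy] at h5
  have hB : Bes (chi F) (JJ (chi F)) := by
    refine Pool.Agent.K3h67.KR.stmG F (chi F) h1 ?_ hcube
    intro x
    have := chi_equiv (fr F 1) x
    rwa [fr_apply, pow_one] at this
  have hJ : ∀ (φ : F ≃+* F) (x : F), JJ (chi F) (φ x) = JJ (chi F) x := by
    intro φ x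
    unfold JJ
    congr 1
    symm
    refine Fintype.sum_equiv φ.toEquiv _ _ fun l => ?_
    show _ = chi F (φ x * (φ l ^ 3 + φ l ^ 2))
    rw [← map_pow, ← map_pow, ← map_add, ← map_mul, chi_equiv]
  have hD : ∀ j : ℕ, Nat.Coprime j n →
      1 + ∑ v ∈ S01 F, chi F (fr F j v * (fr F j v + 1) /
      ((v + fr F j v) * (fr F j v + fr F j (fr F j v)))) =
      ∑ x : Fˣ, chi F x * rho (chi F) (JJ (chi F)) (x * fr F j x) := by
    intro j hj
    have hfix : ∀ x : F, fr F j x = x → x = 0 ∨ x = 1 := by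
      intro x hx
      rw [fr_apply] at hx
      exact fixed n j hF hj x hx
    have hfix2 : ∀ x : F, fr F j (fr F j x) = x → x = 0 ∨ x = 1 := by
      intro x hx
      rw [fr_apply, fr_apply, ← pow_mul, ← pow_add, ← two_mul] at hx
      exact fixed n (2 * j) hF (Nat.Coprime.mul_left h2n hj) x hx
    have hinj : Function.Injective fun x : Fˣ => (x : F) * fr F j x := by
      intro x y hxy
      simp only [] at hxy
      have hy := y.ne_zero
      have hx := x.ne_zero
      have hfy : fr F j (y : F) ≠ 0 := fun h0 => hy ((map_eq_zero _).1 h0)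
      have hfx : fr F j (x : F) ≠ 0 := fun h0 => hx ((map_eq_zero _).1 h0)
      have h3 : fr F j ((x : F) / y) = y / x := by
        rw [map_div₀, div_eq_div_iff hfy hx]
        linear_combination hxy
      have h4 : fr F j (fr F j ((x : F) / y)) = x / y := by
        rw [h3, map_div₀, div_eq_div_iff hfx hy]
        linear_combination -hxy
      rcases hfix2 _ h4 with h5 | h5
      · exact absurd h5 (div_ne_zero hx hy)
      · rw [div_eq_one_iff_eq hy] at h5
        exact Units.ext h5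
    have := Pool.Agent.K3h73.KR.stmD F (chi F) (JJ (chi F)) h1 hB (fr F j) (chi_equiv _) (hJ _)
      hfix hfix2 hinj
    rw [← this]
    congr 1
    unfold S01
    rw [Finset.sum_filter]
    refine Finset.sum_congr rfl fun v _ => ?_
    by_cases c : v = 0 ∨ v = 1
    · have c' : ¬ (v ≠ 0 ∧ v ≠ 1) := by tauto
      rw [if_pos c, if_neg c']
    · have c' : (v ≠ 0 ∧ v ≠ 1) := by tauto
      rw [if_neg c, if_pos c']
  rw [hD k hk, hD 1 (Nat.coprime_one_left n)]
  obtain ⟨m, hm⟩ : ∃ m : ℕ, ∀ x : F, x ^ 2 ^ (k * m) = x ^ 2 := by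
    by_cases hn1 : 1 < n
    · obtain ⟨m, -, hm⟩ := Nat.exists_mul_mod_eq_one_of_coprime hk hn1
      have h3 : k * m = n * (k * m / n) + 1 := by
        have := Nat.div_add_mod (k * m) n
        omega
      refine ⟨m, fun x => ?_⟩
      rw [h3, pow_add, pow_mul, pow_n n hF, pow_one]
    · have hn2 : n = 1 := by
        rcases hn with ⟨r, hr⟩
        omega
      refine ⟨0, fun x => ?_⟩
      rw [hn2] at hF
      have := FiniteField.pow_card x
      rw [hF, pow_one] at this
      rw [this]; simp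
  refine Pool.Agent.K3h39.KR.main hB h1 (fr F k) (fr F 1) (chi_equiv _) (chi_equiv _) (hJ _) (hJ _)
    m k ?_ ?_
  · intro x
    rw [fr_iter, fr_apply, hm, pow_one]
  · intro x
    rw [fr_iter, fr_apply, one_mul]

/-- **Q2 holds**: let `F` be a field with `2 ^ n` elements, `n` odd, and let `k` be coprime to `n`.
Then `∑_{x ≠ 0} (-1)^{Tr(x + x⁻¹)} = ∑_{v ≠ 0} (-1)^{Tr R_k(v)}`, where
`R_k(v) = (v^(2^k) + 1) v^(2^k) / (v^(2^k) + v)^(2^k + 1)` (division by `0` gives `0`). -/
theorem result (F : Type) [Field F] [Fintype F] [DecidableEq F] [Algebra (ZMod 2) F] (n k : ℕ)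
    (hF : Fintype.card F = 2 ^ n) (hn : Odd n) (hk : Nat.Coprime k n) :
    ∑ x : Fˣ, (-1 : ℤ) ^ (Algebra.trace (ZMod 2) F ((x : F) + (x : F)⁻¹)).val =
      ∑ v : Fˣ, (-1 : ℤ) ^ (Algebra.trace (ZMod 2) F (((v : F) ^ 2 ^ k + 1) * (v : F) ^ 2 ^ k /
        ((v : F) ^ 2 ^ k + v) ^ (2 ^ k + 1))).val := by
  have : CharP F 2 := charP_of_injective_algebraMap (algebraMap (ZMod 2) F).injective 2
  have e1 : ∑ x : Fˣ, chi F ((x : F) + (x : F)⁻¹) =
      ((∑ x : Fˣ, (-1 : ℤ) ^ (Algebra.trace (ZMod 2) F ((x : F) + (x : F)⁻¹)).val : ℤ) : ℂ) := by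
    rw [Int.cast_sum]
    exact Finset.sum_congr rfl fun x _ => chi_apply _
  have e2 : ∑ v : Fˣ, chi F (((v : F) ^ 2 ^ k + 1) * (v : F) ^ 2 ^ k /
        ((v : F) ^ 2 ^ k + v) ^ (2 ^ k + 1)) =
      ((∑ v : Fˣ, (-1 : ℤ) ^ (Algebra.trace (ZMod 2) F (((v : F) ^ 2 ^ k + 1) * (v : F) ^ 2 ^ k /
        ((v : F) ^ 2 ^ k + v) ^ (2 ^ k + 1))).val : ℤ) : ℂ) := by
    rw [Int.cast_sum]
    exact Finset.sum_congr rfl fun x _ => chi_apply _
  have e3 : ∑ x : Fˣ, chi F ((x : F) + (x : F)⁻¹) =
      ∑ v : Fˣ, chi F (((v : F) ^ 2 ^ k + 1) * (v : F) ^ 2 ^ k /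
        ((v : F) ^ 2 ^ k + v) ^ (2 ^ k + 1)) := by
    rw [sum_units_S01 (fun x : F => chi F (x + x⁻¹)),
      sum_units_S01 (fun v : F => chi F ((v ^ 2 ^ k + 1) * v ^ 2 ^ k / (v ^ 2 ^ k + v) ^ (2 ^ k + 1)))]
    have f1 : chi F ((1 : F) + 1⁻¹) = 1 := by
      rw [inv_one, CharTwo.add_self_eq_zero, AddChar.map_zero_eq_one]
    have f2 : chi F (((1 : F) ^ 2 ^ k + 1) * 1 ^ 2 ^ k / (1 ^ 2 ^ k + 1) ^ (2 ^ k + 1)) = 1 := by
      rw [one_pow, CharTwo.add_self_eq_zero, zero_mul, zero_div, AddChar.map_zero_eq_one]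
    rw [f1, f2]
    have f3 : ∑ v ∈ S01 F, chi F ((v ^ 2 ^ k + 1) * v ^ 2 ^ k / (v ^ 2 ^ k + v) ^ (2 ^ k + 1)) =
        ∑ v ∈ S01 F, chi F (fr F k v * (fr F k v + 1) /
          ((v + fr F k v) * (fr F k v + fr F k (fr F k v)))) := by
      refine Finset.sum_congr rfl fun v _ => ?_
      have g1 : (v ^ 2 ^ k + v) ^ (2 ^ k + 1) =
          (v + fr F k v) * (fr F k v + fr F k (fr F k v)) := by
        rw [pow_succ, ← fr_apply k (v ^ 2 ^ k + v), map_add, ← fr_apply k v]
        ring
      rw [g1, fr_apply]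
      congr 1
      ring
    have f4 : ∑ v ∈ S01 F, chi F (fr F 1 v * (fr F 1 v + 1) /
          ((v + fr F 1 v) * (fr F 1 v + fr F 1 (fr F 1 v)))) =
        ∑ x ∈ S01 F, chi F (x + x⁻¹) := by
      refine Finset.sum_nbij' (fun v => v⁻¹ + 1) (fun y => (y + 1)⁻¹) ?_ ?_ ?_ ?_ ?_
      · intro v hv
        rw [mem_S01] at hv ⊢
        constructor
        · intro h0
          apply hv.2
          have : v⁻¹ = 1 := CharTwo.add_eq_zero.1 h0
          rw [inv_eq_one] at this
          exact this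
        · intro h0
          have : v⁻¹ = 0 := by simpa using h0
          exact hv.1 (inv_eq_zero.1 this)
      · intro y hy
        rw [mem_S01] at hy ⊢
        have h0 : y + 1 ≠ 0 := fun h0 => hy.2 (CharTwo.add_eq_zero.1 h0)
        constructor
        · exact inv_ne_zero h0
        · intro h1
          rw [inv_eq_one] at h1
          apply hy.1
          simpa using h1
      · intro v _
        show (v⁻¹ + 1 + 1)⁻¹ = v
        rw [add_assoc, CharTwo.add_self_eq_zero, add_zero, inv_inv]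
      · intro y _
        show ((y + 1)⁻¹)⁻¹ + 1 = y
        rw [inv_inv, add_assoc, CharTwo.add_self_eq_zero, add_zero]
      · intro v hv
        rw [mem_S01] at hv
        have h0 : v ≠ 0 := hv.1
        have h1 : v + 1 ≠ 0 := fun h0 => hv.2 (CharTwo.add_eq_zero.1 h0)
        have h2 : v⁻¹ + 1 = (v + 1) / v := by field_simp; ring
        have h3 : v + v ^ 2 ≠ 0 := by
          have : v + v ^ 2 = v * (v + 1) := by ring
          rw [this]; exact mul_ne_zero h0 h1
        have h4 : v ^ 2 + (v ^ 2) ^ 2 ≠ 0 := by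
          have : v ^ 2 + (v ^ 2) ^ 2 = (v * (v + 1)) ^ 2 := by grind
          rw [this]; exact pow_ne_zero 2 (mul_ne_zero h0 h1)
        congr 1
        rw [fr_apply, fr_apply, pow_one, h2, inv_div]
        rw [div_eq_iff (mul_ne_zero h3 h4)]
        field_simp
        grind
    have f5 := key (F := F) n k hF hn hk
    rw [f3, f5, f4]
  rw [e1, e2] at e3
  exact_mod_cast e3

end Pool.Agent.Results.MP_2c585b_nt.KloostermanRationalSum
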